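import Mathlib
import Pool.Agent.Lib.MP_4f1247_co.All2

/-!
# MP_4f1247_co : the vertex sets of neighborly polyhedra have dimension at most two

For every `d > 2` there is `c > 0` such that for all neighborly polyhedral surfaces in three-space:
a ball of radius `R` with `N` vertices gives a ball of radius `s ≤ R` with `c (s / R) ^ d N`
vertices, and the ratio of the largest and the smallest distance between the `n` vertices is at
least `c n ^ (1 / d)`.
-/

namespace Pool.Agent.Results.MP_4f1247_co.DimensionTwo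

/-- Let `p i`, `i < n`, be the vertices and `T` the set of the faces of a neighborly polyhedral
surface: the faces are triangles, every two vertices are in exactly two faces, the faces are not
degenerate and two faces meet in their common face only. -/
theorem result : ∀ d : ℝ, 2 < d → ∃ c : ℝ, 0 < c ∧ ∀ (n : ℕ)
    (p : Fin n → EuclideanSpace ℝ (Fin 3)) (T : Finset (Finset (Fin n))),
    (∀ t ∈ T, t.card = 3) →
    (∀ i j : Fin n, i ≠ j → (T.filter (fun t => i ∈ t ∧ j ∈ t)).card = 2) →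
    (∀ t ∈ T, AffineIndependent ℝ (fun x : {i // i ∈ t} => p x.1)) →
    (∀ t₁ ∈ T, ∀ t₂ ∈ T,
      convexHull ℝ (p '' (t₁ : Set (Fin n))) ∩ convexHull ℝ (p '' (t₂ : Set (Fin n)))
        = convexHull ℝ (p '' ((t₁ ∩ t₂ : Finset (Fin n)) : Set (Fin n)))) →
    (∀ (R s : ℝ) (y : EuclideanSpace ℝ (Fin 3)), 0 < s → s ≤ R →
      ∃ x : EuclideanSpace ℝ (Fin 3), c * (s / R) ^ d * ({i | dist (p i) y ≤ R}.ncard : ℝ) ≤
        ({i | dist (p i) x ≤ s}.ncard : ℝ)) ∧
    (2 ≤ n → ∀ R s : ℝ, 0 < s → (∀ i j, dist (p i) (p j) ≤ R) →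
      (∀ i j, i ≠ j → s ≤ dist (p i) (p j)) → c * (n : ℝ) ^ (1 / d) ≤ R / s) := by
  intro d hd
  obtain ⟨c, hc, h⟩ := Pool.Agent.Lib.MP_4f1247_co.stFin3All d hd
  exact ⟨c, hc, fun n p T h1 h2 h3 h4 => h n p T ⟨h1, h2, h3, h4⟩⟩

end Pool.Agent.Results.MP_4f1247_co.DimensionTwo
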