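import Mathlib
import Pool.Agent.Lib.MP_4f1247_co.NL.All14

/-!
# MP_4f1247_co : the vertices of large neighborly polyhedra concentrate on lines

Every large neighborly polyhedral surface has an isotropic projective position, and in each such
position it has too many vertices near some line, also after the deletion of any small proportion
of the vertices. In an arbitrary projective position there are too many vertices near some line,
or almost three quarters of them near some plane. If the vertices are in the unit ball then too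
many of them are in some thin slab.
-/

set_option autoImplicit false

open Filter Topology

namespace Pool.Agent.Results.MP_4f1247_co.LineConcentration

/-- `p i`, `i < n`, are the vertices and `T` is the set of the faces of a neighborly polyhedral
surface: the faces are triangles, every two vertices are in exactly two faces, the faces are not
degenerate and two faces meet in their common face only. -/
def Neighborly {n : ℕ} (p : Fin n → EuclideanSpace ℝ (Fin 3)) (T : Finset (Finset (Fin n))) :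
    Prop :=
  (∀ t ∈ T, t.card = 3) ∧
  (∀ i j : Fin n, i ≠ j → (T.filter (fun t => i ∈ t ∧ j ∈ t)).card = 2) ∧
  (∀ t ∈ T, AffineIndependent ℝ (fun x : {i // i ∈ t} => p x.1)) ∧
  (∀ t₁ ∈ T, ∀ t₂ ∈ T,
    convexHull ℝ (p '' (t₁ : Set (Fin n))) ∩ convexHull ℝ (p '' (t₂ : Set (Fin n)))
      = convexHull ℝ (p '' ((t₁ ∩ t₂ : Finset (Fin n)) : Set (Fin n))))

/-- the unit vector in the direction of `g (x, 1)`: the point `x` in the projective position `g` -/
noncomputable def pos (g : EuclideanSpace ℝ (Fin 4) ≃ₗ[ℝ] EuclideanSpace ℝ (Fin 4))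
    (x : EuclideanSpace ℝ (Fin 3)) : EuclideanSpace ℝ (Fin 4) :=
  ‖g (WithLp.toLp 2 (Fin.snoc x 1))‖⁻¹ • g (WithLp.toLp 2 (Fin.snoc x 1))

/-- `g` brings the points `p i` in isotropic position -/
def Isotropic {n : ℕ} (g : EuclideanSpace ℝ (Fin 4) ≃ₗ[ℝ] EuclideanSpace ℝ (Fin 4))
    (p : Fin n → EuclideanSpace ℝ (Fin 3)) : Prop :=
  ∀ v : EuclideanSpace ℝ (Fin 4), ∑ i, (inner ℝ v (pos g (p i)) : ℝ) ^ 2 = n * ‖v‖ ^ 2 / 4

/-- for some `r ≥ r₀` some projective line has more than `ω r * n` points of `G` within `r` -/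
def LineCharged {n : ℕ} (ω : ℝ → ℝ) (r₀ : ℝ)
    (g : EuclideanSpace ℝ (Fin 4) ≃ₗ[ℝ] EuclideanSpace ℝ (Fin 4))
    (p : Fin n → EuclideanSpace ℝ (Fin 3)) (G : Finset (Fin n)) : Prop :=
  ∃ (W : Submodule ℝ (EuclideanSpace ℝ (Fin 4))) (r : ℝ), Module.finrank ℝ W = 2 ∧ r₀ ≤ r ∧
    ω r * n < ({i | i ∈ G ∧ Metric.infDist (pos g (p i)) W ≤ r}.ncard : ℝ)

/-- some projective plane has more than `θ * n` points within `δ` -/
def PlaneHeavy {n : ℕ} (δ θ : ℝ) (g : EuclideanSpace ℝ (Fin 4) ≃ₗ[ℝ] EuclideanSpace ℝ (Fin 4))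
    (p : Fin n → EuclideanSpace ℝ (Fin 3)) : Prop :=
  ∃ W : Submodule ℝ (EuclideanSpace ℝ (Fin 4)), Module.finrank ℝ W = 3 ∧
    θ * n < ({i | Metric.infDist (pos g (p i)) W ≤ δ}.ncard : ℝ)

theorem result : ∃ c₀ : ℝ, 0 < c₀ ∧ ∀ (ω : ℝ → ℝ) (δ θ : ℝ),
    Tendsto ω (𝓝[>] 0) (𝓝 0) → 0 < δ → θ < 3 / 4 → ∃ (n₀ : ℕ) (r₀ : ℝ), 0 < r₀ ∧
    ∀ (n : ℕ) (p : Fin n → EuclideanSpace ℝ (Fin 3)) (T : Finset (Finset (Fin n))),
    n₀ ≤ n → Neighborly p T →
      (∃ g, Isotropic g p) ∧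
      ∀ G : Finset (Fin n), (1 - c₀) * n ≤ G.card →
        (∀ g, LineCharged ω r₀ g p G ∨ (¬ Isotropic g p ∧ PlaneHeavy δ θ g p)) ∧
        ((∀ i, ‖p i‖ ≤ 1) → ∃ (e : EuclideanSpace ℝ (Fin 3)) (s r : ℝ), ‖e‖ = 1 ∧ r₀ ≤ r ∧
          ω r * n < ({i | i ∈ G ∧ |inner ℝ e (p i) - s| ≤ r}.ncard : ℝ)) := by
  obtain ⟨c₁, hc₁, h₁⟩ := NPL.All14.a_mainR
  obtain ⟨c₂, hc₂, h₂⟩ := NPL.All14.a_slabR
  obtain ⟨c₃, hc₃, h₃⟩ := NPL.All14.a_dichR
  refine ⟨min c₁ (min c₂ c₃), lt_min hc₁ (lt_min hc₂ hc₃), fun ω δ θ hω hδ hθ => ?_⟩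
  obtain ⟨n₁, r₁, hr₁, hn₁⟩ := h₁ ω hω
  obtain ⟨n₂, r₂, hr₂, hn₂⟩ := h₂ ω hω
  obtain ⟨n₃, r₃, hr₃, hn₃⟩ := h₃ ω hω δ hδ θ hθ
  refine ⟨max 6 (max n₁ (max n₂ n₃)), min r₁ (min r₂ r₃), lt_min hr₁ (lt_min hr₂ hr₃),
    fun n p T hn hT => ⟨?_, fun G hG => ?_⟩⟩
  · exact NPL.All14.a_iso n p T hT ((le_max_left _ _).trans hn)
  have hn' : 3 ≤ n := by
    have := (le_max_left 6 (max n₁ (max n₂ n₃))).trans hn
    omega
  have e₁ : n₁ ≤ n := ((le_max_left _ _).trans (le_max_right _ _)).trans hn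
  have e₂ : n₂ ≤ n :=
    (((le_max_left _ _).trans (le_max_right _ _)).trans (le_max_right _ _)).trans hn
  have e₃ : n₃ ≤ n :=
    (((le_max_right _ _).trans (le_max_right _ _)).trans (le_max_right _ _)).trans hn
  have f₁ : min r₁ (min r₂ r₃) ≤ r₁ := min_le_left _ _
  have f₂ : min r₁ (min r₂ r₃) ≤ r₂ := (min_le_right _ _).trans (min_le_left _ _)
  have f₃ : min r₁ (min r₂ r₃) ≤ r₃ := (min_le_right _ _).trans (min_le_right _ _)
  have hG' : ∀ c : ℝ, min c₁ (min c₂ c₃) ≤ c → (1 - c) * n ≤ G.card := by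
    intro c hc
    refine le_trans ?_ hG
    exact mul_le_mul_of_nonneg_right (by linarith) (Nat.cast_nonneg _)
  have hG₁ := hG' c₁ (min_le_left _ _)
  have hG₂ := hG' c₂ ((min_le_right _ _).trans (min_le_left _ _))
  have hG₃ := hG' c₃ ((min_le_right _ _).trans (min_le_right _ _))
  refine ⟨fun g => ?_, fun hp => ?_⟩
  · obtain ⟨F, -, hF⟩ := NPL.polyFr n p T hT hn' g
    have hFp : ∀ i, F.a i = pos g (p i) := hF
    by_cases hg : Isotropic g p
    · left
      obtain ⟨W, r, hW, hr, h⟩ := hn₁ n e₁ F (fun v => by simpa only [hFp] using hg v) G hG₁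
      exact ⟨W, r, hW, f₁.trans hr, by simpa only [hFp] using h⟩
    · rcases hn₃ n e₃ F G hG₃ with ⟨W, r, hW, hr, h⟩ | ⟨W, hW, h⟩
      · left
        exact ⟨W, r, hW, f₃.trans hr, by simpa only [hFp] using h⟩
      · right
        exact ⟨hg, W, hW, by simpa only [hFp] using h⟩
  · obtain ⟨e, s, r, he, hr, h⟩ := hn₂ n e₂ p T hT hp G hG₂
    exact ⟨e, s, r, he, f₂.trans hr, h⟩

end Pool.Agent.Results.MP_4f1247_co.LineConcentration
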