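import Mathlib
import Pool.Agent.Lib.MP_4f1247_co.NN.Fin14
import Pool.Agent.Lib.MP_4f1247_co.NN.Cert94
import Pool.Agent.Lib.MP_4f1247_co.NN.Gen25

/-!
# MP_4f1247_co : nearly neighborly systems of triangles in three-space

For every `N ≥ 2` and `n = 3 N` there are `n` points of three-space in general position and
`n (n - 3) / 3` triangles with these vertices which meet only in common vertices and edges, and
such that the triangles at every point form two fans which together reach all other points.
-/

set_option autoImplicit false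

namespace Pool.Agent.Results.MP_4f1247_co.NearNeighborly

/-- the sets of three numbers below `n` whose sum is `-1` or `-2` modulo `n` -/
def faces (n : ℕ) : Finset (Finset (Fin n)) :=
  Finset.univ.filter fun t => t.card = 3 ∧
    (((∑ i ∈ t, (i : ℕ)) + 1) % n = 0 ∨ ((∑ i ∈ t, (i : ℕ)) + 2) % n = 0)

/-- the link of `v` consists of two disjoint paths which together contain all other vertices:
`e` is an enumeration of all vertices in which `v` is neither the first nor the last one, and
`v, x, y` form a face if and only if `x` and `y` are neighbours in the enumeration -/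
def LinkTwoPaths {n : ℕ} (T : Finset (Finset (Fin n))) (v : Fin n) : Prop :=
  ∃ e : Equiv.Perm (Fin n), 0 < (e v : ℕ) ∧ (e v : ℕ) + 1 < n ∧
    ∀ x y : Fin n, x ≠ v → y ≠ v →
      (({v, x, y} : Finset (Fin n)) ∈ T ↔ (e x : ℕ) + 1 = e y ∨ (e y : ℕ) + 1 = e x)

theorem result (N : ℕ) (hN : 2 ≤ N) :
    ∃ p : Fin (3 * N) → EuclideanSpace ℝ (Fin 3),
      (∀ s : Finset (Fin (3 * N)), s.card ≤ 4 →
        AffineIndependent ℝ (fun x : {i // i ∈ s} => p x.1)) ∧
      (∀ t ∈ faces (3 * N), ∀ s : Finset (Fin (3 * N)), (s ∈ faces (3 * N) ∨ s.card ≤ 2) →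
        convexHull ℝ (p '' (t : Set (Fin (3 * N)))) ∩ convexHull ℝ (p '' (s : Set (Fin (3 * N)))) =
          convexHull ℝ (p '' ((t ∩ s : Finset (Fin (3 * N))) : Set (Fin (3 * N))))) ∧
      (faces (3 * N)).card = 3 * N * (N - 1) ∧
      ∀ v : Fin (3 * N), LinkTwoPaths (faces (3 * N)) v :=
  Pool.Agent.Lib.MP_4f1247_co.NN.final_of N hN
    (Pool.Agent.Lib.MP_4f1247_co.NN.gp_25 N)
    (Pool.Agent.Lib.MP_4f1247_co.NN.nc N (Pool.Agent.Lib.MP_4f1247_co.NN.gp_25 N))

end Pool.Agent.Results.MP_4f1247_co.NearNeighborly
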