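import Mathlib
import Pool.Agent.Lib.MP_4f1247_co.Sym.Main

/-!
# MP_4f1247_co : the symmetries of a neighborly polyhedron

Every group of affine bijections of three-space which permute the vertices of a neighborly
polyhedron with at least seven vertices is finite, of order dividing twelve, and apart from the
identity it contains only half turns, rotations of order three and orientation reversing maps of
order four (up to affine equivalence).
-/

namespace Pool.Agent.Results.MP_4f1247_co.Symmetries

open Pool.Agent.Lib.MP_4f1247_co.Sym

/-- Let `p i`, `i < n`, `6 < n`, be the vertices and `T` the set of the faces of a neighborly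
polyhedron and let `G` be a group of affine bijections of the space which map vertices to vertices.
Then `G` is finite, its order divides `12`, and its elements are as stated. -/
theorem result (n : ℕ) (hn : 6 < n) (p : Fin n → E3') (T : Finset (Finset (Fin n)))
    (hT : NeighPoly p T) (G : Subgroup Aff) (hG : ∀ f ∈ G, VertexMap p f) :
    Finite G ∧ Nat.card G ∣ 12 ∧ ∀ f ∈ G, f ≠ 1 →
      (HalfTurn f ∨ ThirdTurn f ∨ QuarterTurn f) ∧ (FaceMap p T f → FixOne p f) :=
  main hT hn G hG

end Pool.Agent.Results.MP_4f1247_co.Symmetries
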